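import Pool.Agent.Lib.MP_af3a4a_an.P1.CHK.DATA.N9.K0
import Pool.Agent.Lib.MP_af3a4a_an.P1.CHK.DATA.N9.K1
import Pool.Agent.Lib.MP_af3a4a_an.P1.CHK.DATA.N9.K2

/-! glue for 9 <= N <= 9 (generated) -/

set_option autoImplicit false
set_option maxRecDepth 100000

namespace Pool.Agent.Lib.MP_af3a4a_an.P1.CHK.DATA.N9

open BOX

theorem g0 : ChunkP 9 9 0 1024 0 101 0 2484 := ChunkP.r k0 k1
theorem g1 : ChunkP 9 9 1024 1536 32 64 0 2484 := ChunkP.g k3 k4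
theorem g2 : ChunkP 9 9 1024 1536 0 64 0 2484 := ChunkP.g k2 g1
theorem g3 : ChunkP 9 9 1024 1536 64 80 1296 2484 := ChunkP.R k6 k7
theorem g4 : ChunkP 9 9 1024 1536 64 80 0 2484 := ChunkP.R k5 g3
theorem g5 : ChunkP 9 9 1024 1536 64 96 0 2484 := ChunkP.g g4 k8
theorem g6 : ChunkP 9 9 1024 1536 64 101 0 2484 := ChunkP.g g5 k9
theorem g7 : ChunkP 9 9 1024 1536 0 101 0 2484 := ChunkP.g g2 g6
theorem g8 : ChunkP 9 9 1536 2048 48 64 1296 2484 := ChunkP.r k16 k17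
theorem g9 : ChunkP 9 9 1536 2048 48 64 1248 2484 := ChunkP.R k15 g8
theorem g10 : ChunkP 9 9 1536 2048 48 64 1200 2484 := ChunkP.R k14 g9
theorem g11 : ChunkP 9 9 1536 2048 48 64 1056 2484 := ChunkP.R k13 g10
theorem g12 : ChunkP 9 9 1536 2048 48 64 0 2484 := ChunkP.R k12 g11
theorem g13 : ChunkP 9 9 1536 2048 32 64 0 2484 := ChunkP.g k11 g12
theorem g14 : ChunkP 9 9 1536 2048 0 64 0 2484 := ChunkP.g k10 g13
theorem g15 : ChunkP 9 9 1536 1792 64 72 1920 2484 := ChunkP.r k28 k29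
theorem g16 : ChunkP 9 9 1536 1792 64 72 1872 2484 := ChunkP.R k27 g15
theorem g17 : ChunkP 9 9 1536 1792 64 72 1824 2484 := ChunkP.R k26 g16
theorem g18 : ChunkP 9 9 1536 1792 64 72 1680 2484 := ChunkP.R k25 g17
theorem g19 : ChunkP 9 9 1536 1792 64 80 1680 2484 := ChunkP.g g18 k30
theorem g20 : ChunkP 9 9 1536 1792 64 80 1632 2484 := ChunkP.R k24 g19
theorem g21 : ChunkP 9 9 1536 1792 64 80 1536 2484 := ChunkP.R k23 g20
theorem g22 : ChunkP 9 9 1536 1792 64 80 1344 2484 := ChunkP.R k22 g21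
theorem g23 : ChunkP 9 9 1536 2048 64 80 1344 2484 := ChunkP.r g22 k31
theorem g24 : ChunkP 9 9 1536 2048 64 80 1296 2484 := ChunkP.R k21 g23
theorem g25 : ChunkP 9 9 1536 2048 64 80 1200 2484 := ChunkP.R k20 g24
theorem g26 : ChunkP 9 9 1536 2048 64 80 1056 2484 := ChunkP.R k19 g25
theorem g27 : ChunkP 9 9 1536 2048 64 80 0 2484 := ChunkP.R k18 g26
theorem g28 : ChunkP 9 9 1536 2048 64 96 0 2484 := ChunkP.g g27 k32
theorem g29 : ChunkP 9 9 1536 2048 64 101 0 2484 := ChunkP.g g28 k33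
theorem g30 : ChunkP 9 9 1536 2048 0 101 0 2484 := ChunkP.g g14 g29
theorem g31 : ChunkP 9 9 1024 2048 0 101 0 2484 := ChunkP.r g7 g30
theorem g32 : ChunkP 9 9 0 2048 0 101 0 2484 := ChunkP.r g0 g31
theorem g33 : ChunkP 9 9 2048 2560 48 64 864 2484 := ChunkP.g k38 k39
theorem g34 : ChunkP 9 9 2048 2560 48 64 816 2484 := ChunkP.R k37 g33
theorem g35 : ChunkP 9 9 2048 2560 48 64 0 2484 := ChunkP.R k36 g34
theorem g36 : ChunkP 9 9 2048 2560 32 64 0 2484 := ChunkP.g k35 g35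
theorem g37 : ChunkP 9 9 2048 2560 0 64 0 2484 := ChunkP.g k34 g36
theorem g38 : ChunkP 9 9 2048 2560 0 101 0 2484 := ChunkP.g g37 k40
theorem g39 : ChunkP 9 9 2560 3072 0 64 0 2484 := ChunkP.g k41 k42
theorem g40 : ChunkP 9 9 2560 3072 0 101 0 2484 := ChunkP.g g39 k43
theorem g41 : ChunkP 9 9 2048 3072 0 101 0 2484 := ChunkP.r g38 g40
theorem g42 : ChunkP 9 9 3072 3584 0 101 0 2484 := ChunkP.g k44 k45
theorem g43 : ChunkP 9 9 3072 4096 0 101 0 2484 := ChunkP.r g42 k46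
theorem g44 : ChunkP 9 9 2048 4096 0 101 0 2484 := ChunkP.r g41 g43
theorem g45 : ChunkP 9 9 0 4096 0 101 0 2484 := ChunkP.r g32 g44

/-- the whole box -/
theorem allBox : ChunkP 9 9 0 4096 0 101 0 2484 := g45

theorem full {N : ℕ} (hNa : 9 ≤ N) (hNb : N ≤ 9) {z w : Fin N → ℂ} {R : ℝ} {σ : Fin N → ℂ}
    (hC : Pool.Agent.Lib.MP_af3a4a_an.P1.H80.Cfg2 N z w R σ) : ((2484 : ℕ) : ℝ) / 1024 < R := ChunkP.full allBox hNa hNb hC

end Pool.Agent.Lib.MP_af3a4a_an.P1.CHK.DATA.N9
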